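import Pool.Agent.N625.DY.F
import Pool.Agent.N625.DY.J

/-!
# Primes in progressions to all moduli `≤ x ^ (1 - ε)`, on average over the residues given by words of a context-free language

Absolute values over all moduli and arbitrary heights inside; the residue is averaged, with arbitrary coefficients, over
the integers whose digits form a correctly nested word.

Method: exponential sums over the correctly nested words by a stack machine, a harmonic function of the stack and a
cancellation between the two ways to return to a stack in two steps; ballot numbers. The passage from such exponential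
sums to averages of primes in residue classes is from the starting files (`Pool.Agent.TH872.An.av_law`).

From Mathlib: `ArithmeticFunction.vonMangoldt`: the function `Λ`; `Nat.totient`: Euler's function.
-/

set_option autoImplicit false

namespace Pool.Agent.Results.MP_848d44_nt.BracketAverages

open Finset

/-- `P` is a set of pairs of an opening digit and a closing digit which match each other, `E` is a set of neutral
digits; the digits are smaller than `b`, no digit plays two of the three roles, and there is at least one pair.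
(An opening digit can match several closing digits, and conversely.) -/
structure Alphabet (b : ℕ) (P : Finset (ℕ × ℕ)) (E : Finset ℕ) : Prop where
  lt : ∀ p ∈ P, p.1 < b ∧ p.2 < b
  ne : ∀ p ∈ P, ∀ p' ∈ P, p.1 ≠ p'.2
  neutral : ∀ a ∈ E, a < b ∧ ∀ p ∈ P, a ≠ p.1 ∧ a ≠ p.2
  nonempty : P.Nonempty

/-- The correctly nested words: the empty word; a neutral digit followed by a correctly nested word; and `o u c w`,
where `u` and `w` are correctly nested words and the opening digit `o` matches the closing digit `c`. -/
inductive Balanced (P : Finset (ℕ × ℕ)) (E : Finset ℕ) : List ℕ → Prop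
  | nil : Balanced P E []
  | neutral (a : ℕ) (w : List ℕ) : a ∈ E → Balanced P E w → Balanced P E (a :: w)
  | pair (o c : ℕ) (u w : List ℕ) : (o, c) ∈ P → Balanced P E u → Balanced P E w → Balanced P E (o :: (u ++ c :: w))

open Classical in
/-- The integers `v < b ^ k` whose `k` digits in base `b`, from the most significant to the least significant one (the
digit number `i`, `0 ≤ i < k`, from the left is `v / b ^ (k - 1 - i) % b`), form a correctly nested word. -/
noncomputable def brackets (b : ℕ) (P : Finset (ℕ × ℕ)) (E : Finset ℕ) (k : ℕ) : Finset ℕ :=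
  (range (b ^ k)).filter fun v => Balanced P E ((List.range k).map fun i => v / b ^ (k - 1 - i) % b)

/-- `ψ(x; q, a)`: the sum of `Λ(n)` over the `n ≤ x` with `n ≡ a (mod q)`. -/
noncomputable def psi (x q a : ℕ) : ℝ :=
  ∑ n ∈ (Icc 1 x).filter (fun n => n ≡ a [MOD q]), ArithmeticFunction.vonMangoldt n

/-- The sum of `w(v) (ψ(x; q, a) - x / φ(q))` over the elements `v` of `S` for which the residue `a = c + κ v` is positive
and coprime to `q`. -/
noncomputable def total (S : Finset ℕ) (κ c : ℤ) (w : ℕ → ℝ) (x q : ℕ) : ℝ :=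
  ∑ v ∈ S.filter (fun v : ℕ => 0 < c + κ * (v : ℤ) ∧ (c + κ * (v : ℤ)).toNat.Coprime q),
    w v * (psi x q (c + κ * (v : ℤ)).toNat - (x : ℝ) / Nat.totient q)

lemma bal_iff (P : Finset (ℕ × ℕ)) (E : Finset ℕ) (w : List ℕ) : Balanced P E w ↔ Pool.Agent.N625.DY.Balanced P E w := by
  constructor
  · intro h
    induction h with
    | nil => exact .nil
    | neutral a w h1 _ ih => exact .neutral a w h1 ih
    | pair o c u w h1 _ _ ih1 ih2 => exact .pair o c u w h1 ih1 ih2
  · intro h
    induction h with
    | nil => exact .nil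
    | neutral a w h1 _ ih => exact .neutral a w h1 ih
    | pair o c u w h1 _ _ ih1 ih2 => exact .pair o c u w h1 ih1 ih2

lemma brackets_eq (b : ℕ) (P : Finset (ℕ × ℕ)) (E : Finset ℕ) (k : ℕ) :
    brackets b P E k = Pool.Agent.N625.DY.brackets b P E k := by
  classical
  unfold brackets Pool.Agent.N625.DY.brackets Pool.Agent.N625.DY.word
  ext v
  rw [mem_filter, mem_filter, bal_iff]

/-- Let the matching pairs `P` of digits and the neutral digits `E` in base `b`, and `κ ≠ 0`, `B`, `T`, `U` and `ε > 0` be
fixed, let `k` be large and `N = b ^ k`. Let `c` be an arbitrary integer with `|c| ≤ B N`, let `w(v)` be arbitrary real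
coefficients with `|w(v)| ≤ k ^ T`, and for every modulus `q` let `x(q) ≤ B N` be an arbitrary height. Then the sum over
ALL moduli `q ≤ N ^ (1 - ε)` of the ABSOLUTE VALUE of the sum of `w(v) (ψ(x(q); q, a_v) - x(q) / φ(q))`, over the integers
`v` whose `k` digits form a correctly nested word and for which the residue `a_v = c + κ v` is positive and coprime to
`q`, is at most the number of these words times `N / k ^ U`. -/
theorem result (b : ℕ) (P : Finset (ℕ × ℕ)) (E : Finset ℕ) (hA : Alphabet b P E) (κ : ℤ) (hκ : κ ≠ 0) (B T U : ℕ)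
    (ε : ℝ) (hε : 0 < ε) :
    ∃ k₀ : ℕ, ∀ k : ℕ, k₀ ≤ k → ∀ c : ℤ, |c| ≤ B * (b : ℤ) ^ k → ∀ w : ℕ → ℝ, (∀ v, |w v| ≤ (k : ℝ) ^ T) →
      ∀ x : ℕ → ℕ, (∀ q, x q ≤ B * b ^ k) →
      ∑ q ∈ Icc 1 ⌊((b ^ k : ℕ) : ℝ) ^ (1 - ε)⌋₊, |total (brackets b P E k) κ c w (x q) q| ≤
        (brackets b P E k).card * (((b ^ k : ℕ) : ℝ) / (k : ℝ) ^ U) := by
  classical
  have hA' : Pool.Agent.N625.DY.Alphabet b P E := ⟨hA.lt, hA.ne, hA.neutral, hA.nonempty⟩
  obtain ⟨k₀, h0⟩ := Pool.Agent.N625.DY.cls_avg (Pool.Agent.N625.DY.br_cls hA' κ hκ) B T U ε hε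
  refine ⟨k₀, fun k hk c hc w hw x hx => ?_⟩
  rw [brackets_eq]
  obtain ⟨S, hS⟩ : ∃ S, S = Pool.Agent.N625.DY.brackets b P E k := ⟨_, rfl⟩
  rw [← hS]
  by_cases hev : Even k ∨ E.Nonempty
  · have h1 := h0 k hk _ ⟨hev, rfl⟩ c hc w hw x hx
    rw [← hS] at h1
    have hpos : (0 : ℝ) < S.card := by
      rw [hS]
      exact_mod_cast Pool.Agent.N625.DY.card_pos_of hA' k hev
    have hsub : S ⊆ range (b ^ k) := by rw [hS]; exact Pool.Agent.N625.DY.br_sub k
    have e1 : ∀ q, |∑ v ∈ (range (b ^ k)).filter (fun v => 0 < c + κ * (v : ℕ) ∧ (c + κ * (v : ℕ)).toNat.Coprime q),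
        (if v ∈ S then 1 / (S.card : ℝ) else 0) * (w v * Pool.Agent.N625.DY.Err (x q) q (c + κ * (v : ℕ)).toNat)| =
        |total S κ c w (x q) q| / S.card := by
      intro q
      have e2 : ∑ v ∈ (range (b ^ k)).filter (fun v => 0 < c + κ * (v : ℕ) ∧ (c + κ * (v : ℕ)).toNat.Coprime q),
          (if v ∈ S then 1 / (S.card : ℝ) else 0) * (w v * Pool.Agent.N625.DY.Err (x q) q (c + κ * (v : ℕ)).toNat) =
          1 / (S.card : ℝ) * total S κ c w (x q) q := by
        unfold total
        rw [mul_sum, sum_filter, sum_filter, ← sum_subset hsub (by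
          intro v _ hv
          rw [if_neg hv, zero_mul]
          split_ifs <;> rfl)]
        apply sum_congr rfl
        intro v hv
        rw [if_pos hv]
        rfl
      rw [e2, abs_mul, abs_of_pos (by positivity), one_div, inv_mul_eq_div]
    simp only [e1] at h1
    rw [← sum_div, div_le_iff₀ hpos] at h1
    rw [mul_comm]
    exact h1
  · have hS0 : S = ∅ := by rw [hS]; exact Pool.Agent.N625.DY.br_empty k hev
    rw [hS0]
    unfold total
    simp

end Pool.Agent.Results.MP_848d44_nt.BracketAverages
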