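import Mathlib
import Pool.Agent.N610.CH.MGJ
import Pool.Agent.N610.CH.CRT
import Pool.Agent.N610.CH.COL2x
import Pool.Agent.N610.CH.CEN
import Pool.Agent.N610.CH.CHJ
import Pool.Agent.N610.CH.CST
import Pool.Agent.N610.CH.CCO
import Pool.Agent.N610.CH.ORT
import Pool.Agent.N610.CH.DIG

/-!
# Primes, and prime values of polynomials, in residue classes: jump inequality along chains of moduli

Let `F = (f_1, …, f_k)` be a system of irreducible polynomials, `V = ∏_{p ≤ Y} (1 - ω_F(p) / p)` and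
`A` a set of integers `m` in `(N, N + Y]` for which no `f_i(m)` has a prime factor `≤ Y ^ (1 / r)` (for
example: all `|f_i(m)|` are prime; for `k = 1`, `f_1 = x` this is any set of primes). Let `q_0 ∣ q_1 ∣ … ∣ q_J` be any chain of moduli with
`q_J ≤ C Y / max (log Y) (1 / V)`. Consider the densities `D_j(n)` of `A` in the classes
`n mod q_j`, relative to the prediction `Y V / (q_j ∏_{p ∣ q_j} (1 - ω_F(p) / p))` of the sieve. On
average over the reduced classes `n mod q_J` the sequence `D_0(n), …, D_J(n)` changes at most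
`K / λ ^ 2` times by at least `λ`, uniformly in the system, `N`, `A`, the chain and `λ`. So for all but
`K / ε ^ 3` of the steps `j` the elements of `A` in almost all classes mod `q_j` are equidistributed,
up to `ε`, in the subclasses mod `q_(j+1)`. For `q_j = 2 ^ j` this concerns the binary digits of the
integers `n` for which all `f_i(n)` are prime.
-/

set_option autoImplicit false

open Polynomial Finset Filter

namespace Pool.Agent.Results.MP_848d44_nt.ChainsOfModuli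

/-- systems of `k` different irreducible polynomials of degrees `1, …, d` with positive leading
coefficients, with coefficients of absolute value at most `T`, and without fixed prime divisor of
their product -/
structure Admissible (k d : ℕ) (T : ℝ) (f : Fin k → ℤ[X]) : Prop where
  irreducible : ∀ i, Irreducible (f i)
  degree : ∀ i, 0 < (f i).natDegree ∧ (f i).natDegree ≤ d
  leading : ∀ i, 0 < (f i).leadingCoeff
  distinct : Function.Injective f
  height : ∀ i j, |(((f i).coeff j : ℤ) : ℝ)| ≤ T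
  adm : ∀ p : ℕ, p.Prime → ∃ m : ℕ, ∀ i, ¬ (p : ℤ) ∣ (f i).eval (m : ℤ)

open Classical in
/-- `ω_F(p)`, the number of the residue classes mod `p` in which some `f i` has a zero -/
noncomputable def omega {k : ℕ} (f : Fin k → ℤ[X]) (p : ℕ) : ℕ :=
  ((range p).filter (fun a : ℕ => ∃ i, (p : ℤ) ∣ (f i).eval (a : ℤ))).card

/-- the sieve product `∏_{p ≤ Y} (1 - ω_F(p) / p)` -/
noncomputable def V {k : ℕ} (f : Fin k → ℤ[X]) (Y : ℕ) : ℝ :=
  ∏ p ∈ (Icc 1 Y).filter Nat.Prime, (1 - (omega f p : ℝ) / p)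

/-- for the elements `m` of `A` in `(a, b]` no value `f i (m)` has a prime factor `≤ z` -/
def Rough {k : ℕ} (f : Fin k → ℤ[X]) (A : Set ℕ) (z : ℝ) (a b : ℕ) : Prop :=
  ∀ m ∈ A, a < m → m ≤ b → ∀ i, ∀ p : ℕ, p.Prime → (p : ℤ) ∣ (f i).eval (m : ℤ) → z < p

/-- `a` is reduced mod `q`: no prime factor of `q` divides a value `f i (a)` -/
def Reduced {k : ℕ} (f : Fin k → ℤ[X]) (q a : ℕ) : Prop :=
  ∀ p : ℕ, p.Prime → p ∣ q → ∀ i, ¬ (p : ℤ) ∣ (f i).eval (a : ℤ)

open Classical in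
/-- the reduced residue classes mod `q` -/
noncomputable def classes {k : ℕ} (f : Fin k → ℤ[X]) (q : ℕ) : Finset ℕ :=
  (range q).filter (fun b => Reduced f q b)

open Classical in
/-- The density of `A` in the class of `n` mod `q`: the number of the `m ∈ A`, `N < m ≤ N + Y`,
`m ≡ n mod q`, divided by `Y v / (q ∏_{p ∣ q} (1 - ω_F(p) / p))`. -/
noncomputable def density {k : ℕ} (f : Fin k → ℤ[X]) (A : Set ℕ) (v : ℝ) (N Y q n : ℕ) : ℝ :=
  (((Ioc N (N + Y)).filter (fun m => m ∈ A ∧ m % q = n % q)).card : ℝ) /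
    (Y * v / (q * ∏ p ∈ q.primeFactors, (1 - (omega f p : ℝ) / p)))

/-- the sequence `D 0, …, D J` changes at least `k` times by at least `lam`: there are `k`
non-overlapping pairs of indices with values which differ by at least `lam` -/
def Changes (D : ℕ → ℝ) (J : ℕ) (lam : ℝ) (k : ℕ) : Prop :=
  ∃ s t : ℕ → ℕ, (∀ i < k, 0 ≤ s i ∧ s i < t i ∧ t i ≤ J ∧ lam ≤ |D (t i) - D (s i)|) ∧
    ∀ i, i + 1 < k → t i ≤ s (i + 1)

/-- `q 0 ∣ q 1 ∣ … ∣ q J` is a chain of moduli, and all the elements of `A` in `(N, N + Y]` are reduced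
mod `q J` -/
def Chain {k : ℕ} (f : Fin k → ℤ[X]) (A : Set ℕ) (N Y J : ℕ) (q : ℕ → ℕ) : Prop :=
  (∀ j < J, q j ∣ q (j + 1)) ∧ 1 ≤ q J ∧ ∀ m ∈ A, N < m → m ≤ N + Y → Reduced f (q J) m

open Classical in
/-- (1) For all `k, d, C, r ≥ 1` there is `K` such that for all large `Y`, all systems `F` of `k`
polynomials of degree `≤ d` and height `≤ Y ^ C`, all `N`, all sets `A` such that for `m ∈ A`,
`N < m ≤ N + Y`, no `f_i(m)` has a prime factor `≤ Y ^ (1 / r)`, all chains of moduli with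
`log Y ≤ C Y / q_J` and `1 ≤ C V Y / q_J`, and all `λ > 0`: if for every reduced class `n` mod `q_J`
the densities `D_j(n)`, `0 ≤ j ≤ J`, change `M(n)` times by at least `λ`, then the mean value of `M(n)`
over the reduced classes is at most `K / λ ^ 2`.
(2) In the same situation, for all but at most `K / ε ^ 3` of the indices `j < J` the densities
`D_j(n)` and `D_(j+1)(n)` differ by less than `ε` for all but a proportion `ε` of the reduced
classes `n` mod `q_J`.
(3) Let `F` be any system of irreducible nonconstant polynomials, no two equal up to sign, and `0 < θ ≤ 1`. There is `K` such that for all large `X`,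
`X ^ θ ≤ Y ≤ X`, all sets `A` of integers `m` such that all `|f_i(m)|` are prime, and all chains of
moduli with `q_J ≤ Y / (log X) ^ k`: the conclusion of (1) holds for the densities of `A` in the window
`(X, X + Y]` relative to `(log X) ^ (-k)`.
(4) In the situation of (3) let `b ≥ 2` and `b ^ J ≤ Y / (log X) ^ k`. For all but at most `K / ε ^ 2`
of the positions `1 ≤ j < J` every digit `c < b` occurs at the position `j` of the base `b` expansion
of `#A / b` elements of `A` (in the window), up to an error `ε Y / (log X) ^ k`. -/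
theorem result :
    (∀ k d C r : ℕ, 1 ≤ k → 1 ≤ d → 1 ≤ C → 1 ≤ r → ∃ K : ℝ, 0 < K ∧
      ∀ᶠ Y : ℕ in atTop, ∀ f : Fin k → ℤ[X], Admissible k d ((Y : ℝ) ^ C) f →
        ∀ (N : ℕ) (A : Set ℕ), Rough f A ((Y : ℝ) ^ (1 / (r : ℝ))) N (N + Y) →
          ∀ (J : ℕ) (q : ℕ → ℕ), Chain f A N Y J q → Real.log Y ≤ C * ((Y : ℝ) / q J) →
            1 ≤ C * ((Y : ℝ) / q J) * V f Y → ∀ lam : ℝ, 0 < lam → ∀ M : ℕ → ℕ,
              (∀ n ∈ classes f (q J), Changes (fun j => density f A (V f Y) N Y (q j) n) J lam (M n)) →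
                ∑ n ∈ classes f (q J), (M n : ℝ) ≤ K * (classes f (q J)).card / lam ^ 2) ∧
    (∀ k d C r : ℕ, 1 ≤ k → 1 ≤ d → 1 ≤ C → 1 ≤ r → ∃ K : ℝ, 0 < K ∧
      ∀ᶠ Y : ℕ in atTop, ∀ f : Fin k → ℤ[X], Admissible k d ((Y : ℝ) ^ C) f →
        ∀ (N : ℕ) (A : Set ℕ), Rough f A ((Y : ℝ) ^ (1 / (r : ℝ))) N (N + Y) →
          ∀ (J : ℕ) (q : ℕ → ℕ), Chain f A N Y J q → Real.log Y ≤ C * ((Y : ℝ) / q J) →
            1 ≤ C * ((Y : ℝ) / q J) * V f Y → ∀ ε : ℝ, 0 < ε →
              (((range J).filter (fun j => ε * (classes f (q J)).card <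
                (((classes f (q J)).filter (fun n => ε ≤ |density f A (V f Y) N Y (q (j + 1)) n -
                  density f A (V f Y) N Y (q j) n|)).card : ℝ))).card : ℝ) ≤ K / ε ^ 3) ∧
    (∀ (k : ℕ) (f : Fin k → ℤ[X]), 1 ≤ k → (∀ i, Irreducible (f i)) →
      (∀ i, 0 < (f i).natDegree) → (∀ i j, i ≠ j → f i ≠ f j ∧ f i ≠ -f j) →
        ∀ θ : ℝ, 0 < θ → θ ≤ 1 → ∃ K : ℝ, 0 < K ∧ ∀ᶠ X : ℕ in atTop, ∀ Y : ℕ, (X : ℝ) ^ θ ≤ Y →
          Y ≤ X → ∀ A : Set ℕ, (∀ m ∈ A, ∀ i, ((f i).eval (m : ℤ)).natAbs.Prime) →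
            ∀ (J : ℕ) (q : ℕ → ℕ), Chain f A X Y J q → q J * Real.log X ^ k ≤ Y →
              ∀ lam : ℝ, 0 < lam → ∀ M : ℕ → ℕ, (∀ n ∈ classes f (q J),
                Changes (fun j => density f A (1 / Real.log X ^ k) X Y (q j) n) J lam (M n)) →
                  ∑ n ∈ classes f (q J), (M n : ℝ) ≤ K * (classes f (q J)).card / lam ^ 2) ∧
    (∀ (k : ℕ) (f : Fin k → ℤ[X]), 1 ≤ k → (∀ i, Irreducible (f i)) →
      (∀ i, 0 < (f i).natDegree) → (∀ i j, i ≠ j → f i ≠ f j ∧ f i ≠ -f j) → ∀ b : ℕ, 2 ≤ b →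
        ∀ θ : ℝ, 0 < θ → θ ≤ 1 → ∃ K : ℝ, 0 < K ∧ ∀ᶠ X : ℕ in atTop, ∀ Y : ℕ, (X : ℝ) ^ θ ≤ Y →
          Y ≤ X → ∀ A : Set ℕ, (∀ m ∈ A, ∀ i, ((f i).eval (m : ℤ)).natAbs.Prime) →
            ∀ J : ℕ, (b : ℝ) ^ J * Real.log X ^ k ≤ Y → ∀ ε : ℝ, 0 < ε →
              (((Ico 1 J).filter (fun j => ∃ c < b, ε * (Y / Real.log X ^ k) <
                |(((Ioc X (X + Y)).filter (fun m => m ∈ A ∧ m / b ^ j % b = c)).card : ℝ) -
                  (((Ioc X (X + Y)).filter (fun m => m ∈ A)).card : ℝ) / b|)).card : ℝ) ≤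
                    K / ε ^ 2) := by
  have hJ : Pool.Agent.N610.CH.S_CHJ :=
    Pool.Agent.N610.CH.t_CHJ Pool.Agent.N610.CH.t_MGJ Pool.Agent.N610.CH.t_CRT
      (Pool.Agent.N610.CH.t_CEN Pool.Agent.N610.CH.t_COL2)
  have hS : ∀ (k d : ℕ) (T : ℝ) (f : Fin k → ℤ[X]), Admissible k d T f →
      Pool.Agent.N610.JW.SysH k d T f := fun k d T f h =>
    ⟨⟨h.irreducible, fun i => (h.degree i).1, h.leading, h.distinct, h.adm⟩,
      fun i => (h.degree i).2, h.height⟩
  refine ⟨?_, ?_, ?_, Pool.Agent.N610.CH.t_DIG Pool.Agent.N610.CH.t_CRT (Pool.Agent.N610.CH.t_ORT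
    Pool.Agent.N610.CH.t_CRT (Pool.Agent.N610.CH.t_CEN Pool.Agent.N610.CH.t_COL2))⟩
  · intro k d C r hk hd hC hr
    obtain ⟨K, hK, h1⟩ := hJ k d C r hk hd hC hr
    refine ⟨K, hK, ?_⟩
    filter_upwards [h1] with Y hY f hf N A hA J q hq hC1 hC2
    exact hY f (hS _ _ _ _ hf) N A hA J q hq.1 hq.2.1 hC1 hC2 hq.2.2
  · intro k d C r hk hd hC hr
    obtain ⟨K, hK, h1⟩ := Pool.Agent.N610.CH.t_CST hJ k d C r hk hd hC hr
    refine ⟨K, hK, ?_⟩
    filter_upwards [h1] with Y hY f hf N A hA J q hq hC1 hC2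
    exact hY f (hS _ _ _ _ hf) N A hA J q hq.1 hq.2.1 hC1 hC2 hq.2.2
  · intro k f hk hirr hdeg hdist θ hθ hθ1
    obtain ⟨K, hK, h1⟩ := Pool.Agent.N610.CH.t_CCO hJ k f hk hirr hdeg hdist θ hθ hθ1
    refine ⟨K, hK, ?_⟩
    filter_upwards [h1] with X hX Y hXY hYX A hA J q hq hqY
    exact hX Y hXY hYX A hA J q hq.1 hq.2.1 hqY hq.2.2

end Pool.Agent.Results.MP_848d44_nt.ChainsOfModuli
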