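import Pool.Agent.N282.MG.A

/-!
# Montgomery's bound for the primes weighted by almost every real character, for all `q ≤ x`

Let `θ_d(x; q, a) = ∑_{p ≤ x, p ≡ a (q)} (p/d) log p`, `(p/d)` the Jacobi symbol. For all but `C D R₀^(-A)` of the odd `d ≤ D`
the bound `|θ_d(x; q, a)| ≤ x^(1/2+ε) / q^(1/2)` of Montgomery's conjecture holds for ALL `x` with `R₀ ≤ x ≤ D^c`, all
`q ≤ x` and all classes `a` mod `q`. There is no hypothesis.

Proof. High moments over `d`. The number of `2k`-tuples of elements of a set `A` of primes with square product is at most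
`(4 k² |A|)^k`, and a class mod `q` has at most `2x/q` elements up to `x`. The Jacobi symbols `(n/d)` of nonsquares `n` cancel
over odd `d` by periodicity in `d`. Union bound over `x`, `q`, `a`.
-/

set_option autoImplicit false

namespace Pool.Agent.Results.MP_848d44_nt.RealCharacterTwists

/-- `θ_d(x; q, a)`: the sum of `(p/d) log p` over the primes `p ≤ x` with `p ≡ a` mod `q`, where `(p/d)` is the Jacobi
symbol. -/
noncomputable def theta (d x q a : ℕ) : ℝ :=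
  ∑ p ∈ (Finset.Icc 1 x).filter (fun p => p.Prime ∧ p ≡ a [MOD q]), ((jacobiSym p d : ℤ) : ℝ) * Real.log p

open Classical in
/-- For all `ε, A > 0` there are `c, C > 0` such that for all `D` and `R₀ ≥ 1`, for all but `C D R₀^(-A)` of the odd `d ≤ D`:
`|θ_d(x; q, a)| ≤ x^(1/2+ε) / q^(1/2)` for ALL integers `x` with `R₀ ≤ x ≤ D^c`, all `1 ≤ q ≤ x` and all `0 ≤ a < q`. -/
theorem result : ∀ ε A : ℝ, 0 < ε → 0 < A → ∃ c C : ℝ, 0 < c ∧ 0 < C ∧ ∀ D R₀ : ℕ, 1 ≤ R₀ →
    (((Finset.Icc 1 D).filter fun d => Odd d ∧ ∃ x q a : ℕ, R₀ ≤ x ∧ (x : ℝ) ≤ (D : ℝ) ^ c ∧ 1 ≤ q ∧ q ≤ x ∧ a < q ∧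
      (x : ℝ) ^ (1 / 2 + ε) / (q : ℝ) ^ (1 / 2 : ℝ) < |theta d x q a|).card : ℝ) ≤ C * D * (R₀ : ℝ) ^ (-A) := by
  intro ε A hε hA
  obtain ⟨c, C, hc, hC, h⟩ := Pool.Agent.N282.MG.A_main ε A hε hA
  refine ⟨c, C, hc, hC, fun D R₀ hR₀ => ?_⟩
  have e : ∀ d x q a : ℕ, theta d x q a = Pool.Agent.N282.MG.th d x q a := by
    intro d x q a
    unfold theta Pool.Agent.N282.MG.th Pool.Agent.N282.MG.PA
    refine Finset.sum_congr ?_ fun _ _ => rfl
    exact Finset.filter_congr_decidable _ _ _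
  simp only [e]
  exact h D R₀ hR₀

end Pool.Agent.Results.MP_848d44_nt.RealCharacterTwists
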