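import Mathlib
import Pool.Agent.N893.SM.M2
import Pool.Agent.N740.HK.Lim

/-!
# Montgomery's bound for primes in arithmetic progressions, in sequential random models

The integers are decided one after the other.  (1) In every model in which the conditional probability of
choosing `n + 1`, given the decisions up to `n`, is `O(1 / log n)` almost surely, the sum of the
`log n (1[n is chosen] - P(n is chosen | past))` over the `n ≤ x`, `n ≡ a` modulo `q`, is
`O(√(x / q) log x + log² x)`, almost surely, uniformly in all `1 ≤ q ≤ x` and `a`.  (2) If moreover the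
conditional probabilities are `λ n` for the `n + 1` which are free of the primes of a finite set `Q`
(and `0` for the other ones), where `λ` is a random non-increasing sequence, then
`ψ(x, q, a) = ψ(x) / φ(q) + O(√(x / q) log x + log² x)` uniformly in all `q ≤ x` and all classes `a` such that no
prime of `Q` divides both `a` and `q`; here `ψ` sums `log n` over the chosen `n` and
`φ(q) = q ∏_{p ∈ Q, p ∣ q} (1 - 1 / p)`.  Hawkins' random sieve is such a model, with `Q = ∅`.

Method (`Pool/Agent/N893/SM`): the exponential supermartingale `exp (θ ∑ I - (e ^ θ - 1) ∑ P)` along a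
progression with `θ = ± min 1 (log x √(q / x))`, and partial summation.

The theorem on Hawkins' sieve that its conditional probabilities are asymptotic to `1 / log n` is from the
team files by helper740 (`Pool/Agent/N740/HK`).
-/

set_option autoImplicit false

open MeasureTheory Filter Set
open scoped Topology

namespace Pool.Agent.Results.MP_848d44_nt.SquareRootBound

variable {Ω : Type}

/-- the conditional probability of choosing `n + 1` given the decisions up to `n` -/
noncomputable def cp [m : MeasurableSpace Ω] (μ : Measure Ω) (ℱ : Filtration ℕ m) (A : ℕ → Set Ω)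
    (n : ℕ) (ω : Ω) : ℝ := (μ[(A (n + 1)).indicator (fun _ => (1 : ℝ)) | ℱ n]) ω

/-- `A n` is the event that `n` is chosen; adapted to `ℱ`; the conditional probabilities are
`O(1 / log n)`, almost surely (with a random constant) -/
def BoundedModel [m : MeasurableSpace Ω] (μ : Measure Ω) (ℱ : Filtration ℕ m) (A : ℕ → Set Ω) : Prop :=
  (∀ n, MeasurableSet[ℱ n] (A n)) ∧ ∀ᵐ ω ∂μ, ∃ B : ℝ, ∀ n : ℕ, 2 ≤ n → cp μ ℱ A n ω * Real.log n ≤ B

/-- a bounded model in which the multiples of the primes in `Q` are not chosen and the conditional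
probability of `A (n + 1)`, `n ≥ 2`, is `lam n` if no `p ∈ Q` divides `n + 1`, where `lam` is a random
non-negative and non-increasing sequence -/
def MonotoneModel [m : MeasurableSpace Ω] (μ : Measure Ω) (ℱ : Filtration ℕ m) (A : ℕ → Set Ω)
    (Q : Finset ℕ) : Prop :=
  BoundedModel μ ℱ A ∧ (∀ n, (∃ p ∈ Q, p ∣ n) → A n = ∅) ∧
  ∃ lam : ℕ → Ω → ℝ, ∀ᵐ ω ∂μ, ∀ n : ℕ, 2 ≤ n → 0 ≤ lam n ω ∧ lam (n + 1) ω ≤ lam n ω ∧
    ((∀ p ∈ Q, ¬ p ∣ n + 1) → cp μ ℱ A n ω = lam n ω)

open Classical in
/-- The random sieve of Hawkins: `2` is chosen, and given the decisions up to `n ≥ 2` the number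
`n + 1` is chosen with probability `∏ (1 - 1 / h)`, the product over the chosen `2 ≤ h ≤ n`. -/
def HawkinsSieve [m : MeasurableSpace Ω] (μ : Measure Ω) (ℱ : Filtration ℕ m) (A : ℕ → Set Ω) : Prop :=
  (∀ n, MeasurableSet[ℱ n] (A n)) ∧ A 2 = univ ∧
  ∀ n, 2 ≤ n → μ[(A (n + 1)).indicator (fun _ => (1 : ℝ)) | ℱ n] =ᵐ[μ]
    fun ω => ∏ h ∈ Finset.Icc 2 n, if ω ∈ A h then 1 - 1 / (h : ℝ) else 1

/-- the class of `a` modulo `q` is admissible: no prime of `Q` divides both `a` and `q` -/
def Adm (Q : Finset ℕ) (q a : ℕ) : Prop := ∀ p ∈ Q, ¬ (p ∣ a ∧ p ∣ q)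

/-- the analogue of Euler's function -/
noncomputable def phi (Q : Finset ℕ) (q : ℕ) : ℝ :=
  q * ∏ p ∈ Q.filter (fun p => p ∣ q), (1 - 1 / (p : ℝ))

open Classical in
/-- the sum of `log n` over the chosen `n ≤ x`, `n ≡ a` modulo `q` -/
noncomputable def psi (A : ℕ → Set Ω) (ω : Ω) (x q a : ℕ) : ℝ :=
  ∑ n ∈ (Finset.Icc 1 x).filter (fun n => n ≡ a [MOD q]), if ω ∈ A n then Real.log n else 0

open Classical in
/-- the sum of `log n (1[n is chosen] - P(n is chosen | past))` over the `n ≤ x`, `n ≡ a` modulo `q` -/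
noncomputable def dev [m : MeasurableSpace Ω] (μ : Measure Ω) (ℱ : Filtration ℕ m) (A : ℕ → Set Ω)
    (ω : Ω) (x q a : ℕ) : ℝ :=
  ∑ n ∈ (Finset.Icc 1 x).filter (fun n => n ≡ a [MOD q]),
    Real.log n * ((if ω ∈ A n then 1 else 0) - cp μ ℱ A (n - 1) ω)

open Pool.Agent.R528.RM Pool.Agent.N893.SM

lemma adm_rep {q a : ℕ} (hq : 1 ≤ q) :
    ∃ a' : ℕ, 1 ≤ a' ∧ a' ≤ q ∧ a' ≡ a [MOD q] := by
  by_cases h0 : a % q = 0
  · have h : q ≡ a [MOD q] := by
      unfold Nat.ModEq
      rw [h0, Nat.mod_self]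
    exact ⟨q, hq, le_rfl, h⟩
  · exact ⟨a % q, by omega, (Nat.mod_lt a hq).le, Nat.mod_modEq a q⟩

lemma adm_congr {Q : Finset ℕ} {q a a' : ℕ} (h : a' ≡ a [MOD q]) (ha : Adm Q q a) : Ad Q q a' := by
  intro p hp ⟨h1, h2⟩
  exact ha p hp ⟨(Nat.ModEq.dvd_iff h h2).1 h1, h2⟩

lemma filter_congr {x q a a' : ℕ} (h : a' ≡ a [MOD q]) :
    (Finset.Icc 1 x).filter (fun n => n ≡ a [MOD q]) = (Finset.Icc 1 x).filter (fun n => n ≡ a' [MOD q]) := by
  refine Finset.filter_congr fun n _ => ?_
  exact ⟨fun h1 => h1.trans h.symm, fun h1 => h1.trans h⟩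

lemma In_eq (A : ℕ → Set Ω) (n : ℕ) (ω : Ω) [Decidable (ω ∈ A n)] : (if ω ∈ A n then (1 : ℝ) else 0) = In A n ω := by
  unfold In
  split_ifs with h
  · rw [indicator_of_mem h]
  · rw [indicator_of_notMem h]

/-- sums over a class as full sums -/
lemma SA_ite (f : ℕ → ℝ) (x q a : ℕ) : SA f x q a = ∑ n ∈ Finset.Icc 1 x, (if n ≡ a [MOD q] then f n else 0) := by
  unfold SA
  rw [Finset.sum_filter]

lemma shape {C : ℝ} (hC : 0 ≤ C) {x q : ℕ} : 2 * (C * (√((x : ℝ) / q) + Real.log x)) * Real.log x =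
    2 * C * (√((x : ℝ) / q) * Real.log x + Real.log x ^ 2) := by ring

lemma eps_form {ε : ℝ} (hε : 0 < ε) {x q : ℕ} (hx : 2 ≤ x) (hq : 1 ≤ q) (hqx : q ≤ x) :
    √((x : ℝ) / q) * Real.log x + Real.log x ^ 2 ≤ (1 / ε + 4 / ε ^ 2) * ((x : ℝ) ^ (1 / 2 + ε) / (q : ℝ) ^ (1 / 2 : ℝ)) := by
  have hqr : (1 : ℝ) ≤ q := by exact_mod_cast hq
  have hqp : (0 : ℝ) < q := by linarith
  have hxr : (2 : ℝ) ≤ x := by exact_mod_cast hx
  have hxp : (0 : ℝ) < x := by linarith
  have hxq : 1 ≤ (x : ℝ) / q := by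
    rw [le_div_iff₀ hqp, one_mul]
    exact_mod_cast hqx
  have hsq : 1 ≤ √((x : ℝ) / q) := Real.one_le_sqrt.2 hxq
  have hlog0 : 0 ≤ Real.log (x : ℝ) := Real.log_natCast_nonneg x
  have e1 : (x : ℝ) ^ (1 / 2 + ε) / (q : ℝ) ^ (1 / 2 : ℝ) = √((x : ℝ) / q) * (x : ℝ) ^ ε := by
    rw [Real.sqrt_eq_rpow, Real.div_rpow hxp.le hqp.le, Real.rpow_add hxp]
    ring
  rw [e1]
  have h1 : Real.log (x : ℝ) ≤ (x : ℝ) ^ ε / ε := Real.log_le_rpow_div hxp.le hε
  have h2 : Real.log (x : ℝ) ≤ (x : ℝ) ^ (ε / 2) / (ε / 2) := Real.log_le_rpow_div hxp.le (by positivity)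
  have h3 : Real.log (x : ℝ) ^ 2 ≤ 4 / ε ^ 2 * (x : ℝ) ^ ε := by
    have := pow_le_pow_left₀ hlog0 h2 2
    refine this.trans (le_of_eq ?_)
    rw [div_pow, ← Real.rpow_natCast, ← Real.rpow_mul hxp.le]
    have : ε / 2 * ((2 : ℕ) : ℝ) = ε := by push_cast; ring
    rw [this]
    field_simp
    norm_num
  have h4 : 0 ≤ 4 / ε ^ 2 * (x : ℝ) ^ ε := by positivity
  have h5 : 4 / ε ^ 2 * (x : ℝ) ^ ε ≤ √((x : ℝ) / q) * (4 / ε ^ 2 * (x : ℝ) ^ ε) := le_mul_of_one_le_left h4 hsq
  have h6 : √((x : ℝ) / q) * Real.log x ≤ √((x : ℝ) / q) * ((x : ℝ) ^ ε / ε) := mul_le_mul_of_nonneg_left h1 (by positivity)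
  calc √((x : ℝ) / q) * Real.log x + Real.log x ^ 2 ≤ √((x : ℝ) / q) * ((x : ℝ) ^ ε / ε) + √((x : ℝ) / q) * (4 / ε ^ 2 * (x : ℝ) ^ ε) := by linarith
    _ = _ := by ring

end Pool.Agent.Results.MP_848d44_nt.SquareRootBound

open Pool.Agent.Results.MP_848d44_nt.SquareRootBound
open Pool.Agent.R528.RM Pool.Agent.N893.SM

/-- Hawkins' sieve is a monotone model with `Q = ∅`; in every bounded model, almost surely there is `C` such
that the deviation of the weighted count from its conditional expectation is at most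
`C (√(x / q) log x + log² x)` for all `x ≥ 2`, `1 ≤ q ≤ x` and all `a`; in every monotone model, almost surely
there is `C` such that `|ψ(x, q, a) - ψ(x) / φ(q)| ≤ C (√(x / q) log x + log² x)` for all `x ≥ 2`, `1 ≤ q ≤ x`
and all admissible `a`, and for all `ε > 0` there is `C` such that it is at most `C x ^ (1/2 + ε) q ^ (-1/2)`. -/
theorem Pool.Agent.Results.MP_848d44_nt.SquareRootBound.result
    {Ω : Type} [m : MeasurableSpace Ω] (μ : Measure Ω) [IsProbabilityMeasure μ]
    (ℱ : Filtration ℕ m) (A : ℕ → Set Ω) :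
    (HawkinsSieve μ ℱ A → MonotoneModel μ ℱ A ∅) ∧
    (BoundedModel μ ℱ A → ∀ᵐ ω ∂μ, ∃ C : ℝ, ∀ x q a : ℕ, 2 ≤ x → 1 ≤ q → q ≤ x →
      |dev μ ℱ A ω x q a| ≤ C * (√((x : ℝ) / q) * Real.log x + Real.log x ^ 2)) ∧
    (∀ Q : Finset ℕ, (∀ p ∈ Q, p.Prime) → MonotoneModel μ ℱ A Q → ∀ᵐ ω ∂μ,
      (∃ C : ℝ, ∀ x q a : ℕ, 2 ≤ x → 1 ≤ q → q ≤ x → Adm Q q a →
        |psi A ω x q a - psi A ω x 1 0 / phi Q q| ≤ C * (√((x : ℝ) / q) * Real.log x + Real.log x ^ 2)) ∧
      (∀ ε : ℝ, 0 < ε → ∃ C : ℝ, ∀ x q a : ℕ, 2 ≤ x → 1 ≤ q → q ≤ x → Adm Q q a →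
        |psi A ω x q a - psi A ω x 1 0 / phi Q q| ≤ C * ((x : ℝ) ^ (1 / 2 + ε) / (q : ℝ) ^ (1 / 2 : ℝ)))) := by
  classical
  refine ⟨?_, ?_, ?_⟩
  · rintro ⟨h1, h2, h3⟩
    have hs : Pool.Agent.N740.HK.HS μ ℱ A := ⟨h1, h2, fun n hn => by
      filter_upwards [h3 n hn] with ω hω
      have e : (∏ h ∈ Finset.Icc 2 n, if ω ∈ A h then 1 - 1 / (h : ℝ) else 1) =
          (Pool.Agent.N740.HK.Y A n ω)⁻¹ := by
        unfold Pool.Agent.N740.HK.Y
        rw [← Finset.prod_inv_distrib]
        refine Finset.prod_congr rfl fun h hh => ?_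
        have h2 : (2 : ℝ) ≤ h := by exact_mod_cast (Finset.mem_Icc.1 hh).1
        by_cases hA : ω ∈ A h
        · rw [if_pos hA, if_pos hA, inv_div]
          field_simp
        · rw [if_neg hA, if_neg hA, inv_one]
      rw [← e]
      exact hω⟩
    refine ⟨⟨h1, ?_⟩, fun n hn => ?_, fun n ω => ∏ h ∈ Finset.Icc 2 n, (if ω ∈ A h then 1 - 1 / (h : ℝ) else 1), ?_⟩
    · filter_upwards [Pool.Agent.N740.HK.hawk_dens hs] with ω hω
      obtain ⟨B, hB⟩ := hω.bddAbove_range
      exact ⟨B, fun n _ => hB ⟨n, rfl⟩⟩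
    · obtain ⟨p, hp, _⟩ := hn
      exact absurd hp (Finset.notMem_empty p)
    · have hall : ∀ᵐ ω ∂μ, ∀ n, 2 ≤ n → cp μ ℱ A n ω = ∏ h ∈ Finset.Icc 2 n, (if ω ∈ A h then 1 - 1 / (h : ℝ) else 1) := by
        rw [ae_all_iff]
        intro n
        by_cases hn : 2 ≤ n
        · filter_upwards [h3 n hn] with ω hω _
          exact hω
        · exact Eventually.of_forall fun ω h => absurd h hn
      filter_upwards [hall] with ω hω n hn
      have hfac : ∀ h : ℕ, 2 ≤ h → 0 ≤ (if ω ∈ A h then 1 - 1 / (h : ℝ) else 1) ∧ (if ω ∈ A h then 1 - 1 / (h : ℝ) else 1) ≤ 1 := by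
        intro h hh
        have h2 : (2 : ℝ) ≤ h := by exact_mod_cast hh
        have h3 : 1 / (h : ℝ) ≤ 1 / 2 := one_div_le_one_div_of_le (by norm_num) h2
        have h4 : 0 ≤ 1 / (h : ℝ) := by positivity
        split_ifs
        · constructor <;> linarith
        · norm_num
      refine ⟨Finset.prod_nonneg fun h hh => (hfac h (Finset.mem_Icc.1 hh).1).1, ?_, fun _ => hω n hn⟩
      rw [← Finset.insert_Icc_right_eq_Icc_add_one (by omega), Finset.prod_insert (by simp)]
      exact mul_le_of_le_one_left (Finset.prod_nonneg fun h hh => (hfac h (Finset.mem_Icc.1 hh).1).1) (hfac (n + 1) (by omega)).2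
  · rintro ⟨hA, hd⟩
    have h01 : ∀ᵐ ω ∂μ, ∀ n, 0 ≤ dens μ ℱ A n ω ∧ dens μ ℱ A n ω ≤ 1 := ae_all_iff.2 fun n => dens01 hA n
    filter_upwards [h01, hd, errM (μ := μ) hA] with ω h01 hd he
    obtain ⟨C, hC, hM⟩ := mont (μ := μ) h01 hd he
    refine ⟨2 * (C + 2), fun x q a hx hq hqx => ?_⟩
    obtain ⟨a', g1, g2, g3⟩ := adm_rep (a := a) hq
    have hqr : (1 : ℝ) ≤ q := by exact_mod_cast hq
    have hcp : ∀ n, cp μ ℱ A n ω = dens μ ℱ A n ω := fun n => rfl
    set e : ℕ → ℝ := fun n => if n ≡ a' [MOD q] then dif μ ℱ A ω n else 0 with he'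
    have hsum : ∀ n, ∑ k ∈ Finset.Icc 1 n, e k = SA (dif μ ℱ A ω) n q a' := fun n => (SA_ite _ n q a').symm
    have hdev : dev μ ℱ A ω x q a = ∑ k ∈ Finset.Icc 1 x, Real.log k * e k := by
      unfold dev
      rw [filter_congr g3, Finset.sum_filter]
      refine Finset.sum_congr rfl fun n _ => ?_
      simp only [he']
      split_ifs with h1 h2
      · rw [hcp]
        unfold dif In
        rw [indicator_of_mem h2]
      · rw [hcp]
        unfold dif In
        rw [indicator_of_notMem h2]
      · rw [mul_zero]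
    have hdif1 : ∀ n, |dif μ ℱ A ω n| ≤ 1 := by
      intro n
      unfold dif
      have k1 := h01 (n - 1)
      have k2 := In_nonneg (A := A) n ω
      have k3 := In_le (A := A) n ω
      rw [abs_le]
      constructor <;> linarith
    have hJ : ∀ n, |SA (dif μ ℱ A ω) n q a'| ≤ (n : ℝ) / q + 1 := by
      intro n
      rw [SA_eq _ hq g1 g2]
      refine ((Finset.abs_sum_le_sum_abs _ _).trans (Finset.sum_le_sum fun k _ => hdif1 _)).trans ?_
      rw [Finset.sum_const, Finset.card_range, nsmul_eq_mul, mul_one]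
      exact (Jn_bounds hq g2).2
    have hfin := mont_log (e := e) (C := C) (M0 := 2) (by linarith) (by norm_num) hq hx hqx (fun n hn1 hnq => by
      rw [hsum]
      refine (hJ n).trans ?_
      have : (n : ℝ) / q ≤ 1 := by
        rw [div_le_one (by linarith)]
        exact_mod_cast hnq.le
      linarith) (by
      rw [hsum]
      refine (hJ 1).trans ?_
      have : ((1 : ℕ) : ℝ) / q ≤ 1 := by
        rw [div_le_one (by linarith)]
        push_cast
        exact hqr
      linarith) (fun n hn2 hnq => by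
      rw [hsum]
      exact hM n q a' hn2 hq hnq g1 g2)
    rw [hdev]
    refine hfin.trans (le_of_eq ?_)
    ring
  · rintro Q hQ ⟨⟨hA, hd⟩, hcop, lam, hlam⟩
    have hmain : ∀ᵐ ω ∂μ, ∃ C : ℝ, 0 ≤ C ∧ ∀ x q a : ℕ, 2 ≤ x → 1 ≤ q → q ≤ x → Adm Q q a →
        |psi A ω x q a - psi A ω x 1 0 / phi Q q| ≤ C * (√((x : ℝ) / q) * Real.log x + Real.log x ^ 2) := by
      have h01 : ∀ᵐ ω ∂μ, ∀ n, 0 ≤ dens μ ℱ A n ω ∧ dens μ ℱ A n ω ≤ 1 := ae_all_iff.2 fun n => dens01 hA n
      have hzero : ∀ᵐ ω ∂μ, ∀ n, (∃ p ∈ Q, p ∣ n + 1) → dens μ ℱ A n ω = 0 := by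
        rw [ae_all_iff]
        intro n
        by_cases hn : ∃ p ∈ Q, p ∣ n + 1
        · have h1 : (A (n + 1)).indicator (fun _ => (1 : ℝ)) = 0 := by
            rw [hcop (n + 1) hn, Set.indicator_empty]
            rfl
          have h2 : dens μ ℱ A n =ᵐ[μ] 0 := by
            unfold dens
            rw [h1]
            exact (condExp_zero (μ := μ) (m := ℱ n)).eventuallyEq
          filter_upwards [h2] with ω hω _
          exact hω
        · exact Eventually.of_forall fun ω h => absurd h hn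
      filter_upwards [h01, hd, errM (μ := μ) hA, hlam, hzero] with ω h01 hd he hlam hzero
      obtain ⟨C, hC, hM⟩ := mont (μ := μ) h01 hd he
      set W := ∏ p ∈ Q, p with hWdef
      have hW : 0 < W := Finset.prod_pos fun q hq => (hQ q hq).pos
      have hWr : (1 : ℝ) ≤ W := by exact_mod_cast hW
      have hcopW : ∀ n : ℕ, n.Coprime W ↔ ∀ p ∈ Q, ¬ p ∣ n := fun n => coprime_prod_iff Q hQ n
      set L2 := lam 2 ω with hL2
      have hL20 : 0 ≤ L2 := (hlam 2 le_rfl).1
      -- the constants
      set C1 : ℝ := (2 * (W : ℝ) ^ 2 + 2 + 2 * (1 + W)) * L2 + 2 * (1 + W) with hC1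
      have hC10 : 0 ≤ C1 := by positivity
      refine ⟨2 * ((C + C * W + 2 * C1) + (2 + W)), by positivity, fun x q a hx hq hqx hadm => ?_⟩
      obtain ⟨a', g1, g2, g3⟩ := adm_rep (a := a) hq
      have had := adm_congr g3 hadm
      have hqr : (1 : ℝ) ≤ q := by exact_mod_cast hq
      have hqp : (0 : ℝ) < q := by linarith
      obtain ⟨p1, p2⟩ := phiQ_bounds Q hQ q
      have hphi : 0 < phiQ Q q := lt_of_lt_of_le (by positivity) p1
      have hphi1 : 1 / phiQ Q q ≤ W / q := by
        rw [div_le_div_iff₀ hphi hqp, one_mul]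
        rw [div_le_iff₀ (by positivity)] at p1
        linarith
      have hWq : (W : ℝ) / q ≤ W := div_le_self (by positivity) hqr
      have hph : phi Q q = phiQ Q q := rfl
      set f := phiQ Q q with hf
      set e : ℕ → ℝ := fun n => In A n ω * ((if n ≡ a' [MOD q] then 1 else 0) - 1 / f) with he'
      have hmod1 : ∀ n b : ℕ, n ≡ b [MOD 1] := fun n b => Nat.modEq_one
      have hsplit : ∀ (F : ℕ → ℝ) (n : ℕ), ∑ k ∈ Finset.Icc 1 n, F k * ((if k ≡ a' [MOD q] then 1 else 0) - 1 / f) =
          SA F n q a' - SA F n 1 1 / f := by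
        intro F n
        rw [SA_ite, SA_ite, Finset.sum_div, ← Finset.sum_sub_distrib]
        refine Finset.sum_congr rfl fun k _ => ?_
        rw [if_pos (hmod1 k 1)]
        split_ifs <;> ring
      have hpsi : psi A ω x q a - psi A ω x 1 0 / phi Q q = ∑ k ∈ Finset.Icc 1 x, Real.log k * e k := by
        have e1 : psi A ω x q a = SA (fun n => Real.log n * In A n ω) x q a' := by
          unfold psi SA
          rw [filter_congr g3]
          refine Finset.sum_congr rfl fun n _ => ?_
          show (if ω ∈ A n then Real.log n else 0) = Real.log n * In A n ω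
          rw [← In_eq]
          split_ifs <;> simp
        have e2 : psi A ω x 1 0 = SA (fun n => Real.log n * In A n ω) x 1 1 := by
          unfold psi SA
          rw [filter_congr (hmod1 1 0)]
          refine Finset.sum_congr rfl fun n _ => ?_
          show (if ω ∈ A n then Real.log n else 0) = Real.log n * In A n ω
          rw [← In_eq]
          split_ifs <;> simp
        rw [e1, e2, hph, ← hsplit]
        refine Finset.sum_congr rfl fun k _ => ?_
        simp only [he']
        ring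
      have hsum : ∀ n, ∑ k ∈ Finset.Icc 1 n, e k = SA (fun k => In A k ω) n q a' - SA (fun k => In A k ω) n 1 1 / f :=
        fun n => hsplit _ n
      have hIn0 : ∀ n q' b, 1 ≤ q' → 1 ≤ b → b ≤ q' → 0 ≤ SA (fun k => In A k ω) n q' b ∧ SA (fun k => In A k ω) n q' b ≤ (n : ℝ) / q' + 1 := by
        intro n q' b k1 k2 k3
        rw [SA_eq _ k1 k2 k3]
        refine ⟨Finset.sum_nonneg fun k _ => In_nonneg _ _, ?_⟩
        refine (Finset.sum_le_sum fun k _ => In_le _ _).trans ?_
        rw [Finset.sum_const, Finset.card_range, nsmul_eq_mul, mul_one]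
        exact (Jn_bounds k1 k3).2
      have hIn1 : ∀ n, SA (fun k => In A k ω) n 1 1 ≤ n := by
        intro n
        rw [SA_ite]
        refine (Finset.sum_le_sum (g := fun _ => (1 : ℝ)) fun k _ => ?_).trans ?_
        · split_ifs
          · exact In_le _ _
          · exact zero_le_one
        · rw [Finset.sum_const, Nat.card_Icc, Nat.add_sub_cancel, nsmul_eq_mul, mul_one]
      have hsmall : ∀ n : ℕ, 1 ≤ n → (n : ℝ) ≤ q → |∑ k ∈ Finset.Icc 1 n, e k| ≤ 2 + W := by
        intro n hn1 hnq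
        rw [hsum]
        have k1 := hIn0 n q a' hq g1 g2
        have k2 := hIn0 n 1 1 le_rfl le_rfl le_rfl
        have k3 := hIn1 n
        have k4 : SA (fun k => In A k ω) n 1 1 / f ≤ W := by
          calc SA (fun k => In A k ω) n 1 1 / f = SA (fun k => In A k ω) n 1 1 * (1 / f) := by ring
            _ ≤ q * (W / q) := mul_le_mul (k3.trans hnq) hphi1 (by positivity) hqp.le
            _ = W := by field_simp
        have k5 : 0 ≤ SA (fun k => In A k ω) n 1 1 / f := div_nonneg k2.1 hphi.le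
        have k6 : (n : ℝ) / q ≤ 1 := by
          rw [div_le_one hqp]
          exact hnq
        rw [abs_le]
        constructor <;> linarith [k1.1, k1.2]
      -- the conditional probabilities
      have hdn : ∀ n, |SA (fun k => dens μ ℱ A (k - 1) ω) n q a' - SA (fun k => dens μ ℱ A (k - 1) ω) n 1 1 / f| ≤ C1 := by
        intro n
        rw [← hsplit]
        set g : ℕ → ℝ := fun k => (if k ≡ a' [MOD q] then 1 else 0) - 1 / f with hg
        have hgb : ∀ k, |g k| ≤ 1 + W := by
          intro k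
          have h1 : 0 ≤ 1 / f := by positivity
          have h2 : 1 / f ≤ W := hphi1.trans hWq
          simp only [hg]
          rw [abs_le]
          split_ifs
          · constructor <;> linarith
          · constructor <;> linarith
        have hterm : ∀ k, |dens μ ℱ A (k - 1) ω * g k| ≤ 1 + W := by
          intro k
          rw [abs_mul, abs_of_nonneg (h01 _).1]
          calc dens μ ℱ A (k - 1) ω * |g k| ≤ 1 * (1 + W) := mul_le_mul (h01 _).2 (hgb k) (abs_nonneg _) zero_le_one
            _ = _ := one_mul _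
        have hCL : 0 ≤ (2 * (W : ℝ) ^ 2 + 2 + 2 * (1 + W)) * L2 := by positivity
        by_cases hn : n ≤ 2
        · have h1 : |∑ k ∈ Finset.Icc 1 n, dens μ ℱ A (k - 1) ω * g k| ≤ n * (1 + W) := by
            refine ((Finset.abs_sum_le_sum_abs _ _).trans (Finset.sum_le_sum fun k _ => hterm k)).trans ?_
            rw [Finset.sum_const, Nat.card_Icc, Nat.add_sub_cancel, nsmul_eq_mul]
          have h2 : (n : ℝ) * (1 + W) ≤ 2 * (1 + W) := mul_le_mul_of_nonneg_right (by exact_mod_cast hn) (by positivity)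
          linarith
        · push Not at hn
          obtain ⟨N, rfl⟩ : ∃ N, n = N + 2 := ⟨n - 2, by omega⟩
          have hshift : ∀ (F : ℕ → ℝ) (N : ℕ), ∑ k ∈ Finset.Icc 1 (N + 2), F k = F 1 + F 2 + ∑ k ∈ Finset.range N, F (k + 3) := by
            intro F N
            induction N with
            | zero => simp [Finset.sum_Icc_succ_top]
            | succ N ih =>
              rw [show N + 1 + 2 = (N + 2) + 1 by ring, Finset.sum_Icc_succ_top (by omega), ih, Finset.sum_range_succ]
              ring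
          rw [hshift]
          set h : ℕ → ℝ := fun k => (if k.Coprime W then 1 else 0) * g k with hh
          have e1 : ∑ k ∈ Finset.range N, dens μ ℱ A (k + 3 - 1) ω * g (k + 3) = ∑ k ∈ Finset.range N, lam (k + 2) ω * h (k + 3) := by
            refine Finset.sum_congr rfl fun k _ => ?_
            rw [show k + 3 - 1 = k + 2 by omega]
            simp only [hh]
            by_cases hc : (k + 3).Coprime W
            · rw [if_pos hc, one_mul]
              have := (hlam (k + 2) (by omega)).2.2 ((hcopW (k + 3)).1 hc)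
              rw [show dens μ ℱ A (k + 2) ω = lam (k + 2) ω from this]
            · rw [if_neg hc, zero_mul, mul_zero]
              have hex : ∃ p ∈ Q, p ∣ k + 2 + 1 := by
                by_contra hcon
                push Not at hcon
                exact hc ((hcopW (k + 3)).2 hcon)
              rw [hzero (k + 2) hex, zero_mul]
          rw [e1]
          have hhb : ∀ k, |h k| ≤ 1 + W := by
            intro k
            simp only [hh]
            rw [abs_mul]
            have : |(if k.Coprime W then (1 : ℝ) else 0)| ≤ 1 := by split_ifs <;> simp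
            calc |(if k.Coprime W then (1 : ℝ) else 0)| * |g k| ≤ 1 * (1 + W) := mul_le_mul this (hgb k) (abs_nonneg _) zero_le_one
              _ = _ := one_mul _
          have habel := abel_anti (l := fun k => lam (k + 2) ω) (h := fun k => h (k + 3)) (C := 2 * (W : ℝ) ^ 2 + 2 + 2 * (1 + W))
            (fun k => (hlam (k + 2) (by omega)).2.1) (fun k => (hlam (k + 2) (by omega)).1) (by positivity) N (fun n' hn' => by
              have h1 := cop_equi Q hQ hq g1 g2 had (n' + 2)
              rw [← hf, ← hWdef, ← hsplit, hshift] at h1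
              have h2 := abs_le.1 h1
              have h3 := abs_le.1 (hhb 1)
              have h4 := abs_le.1 (hhb 2)
              rw [abs_le]
              simp only [hh, hg] at h2 h3 h4 ⊢
              constructor <;> linarith)
          have h3 := hterm 1
          have h4 := hterm 2
          have h5 : |dens μ ℱ A (1 - 1) ω * g 1 + dens μ ℱ A (2 - 1) ω * g 2| ≤ 2 * (1 + W) := by
            refine (abs_add_le _ _).trans ?_
            linarith
          refine (abs_add_le _ _).trans ?_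
          rw [hC1]
          simp only [Nat.zero_add] at habel
          linarith
      have hdecomp : ∀ n q' b, SA (fun k => In A k ω) n q' b = SA (dif μ ℱ A ω) n q' b + SA (fun k => dens μ ℱ A (k - 1) ω) n q' b := by
        intro n q' b
        unfold SA
        rw [← Finset.sum_add_distrib]
        refine Finset.sum_congr rfl fun k _ => ?_
        unfold dif
        ring
      have hfin := mont_log (e := e) (C := C + C * W + 2 * C1) (M0 := 2 + W) (by positivity) (by positivity) hq hx hqx (fun n hn1 hnq => by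
        exact hsmall n hn1 (by exact_mod_cast hnq.le)) (hsmall 1 le_rfl (by push_cast; exact hqr)) (fun n hn2 hnq => by
        rw [hsum, hdecomp, hdecomp]
        have hn2r : (2 : ℝ) ≤ n := by exact_mod_cast hn2
        have hnp : (0 : ℝ) < n := by linarith
        have k1 := hM n q a' hn2 hq hnq g1 g2
        have k2 := hM n 1 1 hn2 le_rfl (by omega) le_rfl le_rfl
        have k3 := hdn n
        have hnq1 : 1 ≤ (n : ℝ) / q := by
          rw [le_div_iff₀ hqp, one_mul]
          exact_mod_cast hnq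
        have hs1 : 1 ≤ √((n : ℝ) / q) := Real.one_le_sqrt.2 hnq1
        have hl0 : 0 ≤ Real.log (n : ℝ) := Real.log_natCast_nonneg n
        have k4 : |SA (dif μ ℱ A ω) n 1 1 / f| ≤ C * W * (√((n : ℝ) / q) + Real.log n) := by
          rw [abs_div, abs_of_pos hphi]
          rw [Nat.cast_one, div_one] at k2
          have e1 : √(n : ℝ) / q ≤ √((n : ℝ) / q) := by
            rw [Real.sqrt_div hnp.le]
            refine div_le_div_of_nonneg_left (Real.sqrt_nonneg _) (by positivity) ?_
            have hqq := Real.sqrt_le_sqrt (show (q : ℝ) ≤ q * q by nlinarith)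
            rwa [Real.sqrt_mul_self hqp.le] at hqq
          have e2 : Real.log (n : ℝ) / q ≤ Real.log n := div_le_self hl0 hqr
          calc |SA (dif μ ℱ A ω) n 1 1| / f = |SA (dif μ ℱ A ω) n 1 1| * (1 / f) := by ring
            _ ≤ (C * (√(n : ℝ) + Real.log n)) * (W / q) := mul_le_mul k2 hphi1 (by positivity) (by positivity)
            _ = C * W * (√(n : ℝ) / q + Real.log n / q) := by ring
            _ ≤ _ := mul_le_mul_of_nonneg_left (by linarith) (by positivity)
        have k5 := abs_le.1 k1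
        have k6 := abs_le.1 k4
        have k7 := abs_le.1 k3
        have k8 : C1 ≤ 2 * C1 * (√((n : ℝ) / q) + Real.log n) := by nlinarith
        have e0 : SA (dif μ ℱ A ω) n q a' + SA (fun k => dens μ ℱ A (k - 1) ω) n q a' -
          (SA (dif μ ℱ A ω) n 1 1 + SA (fun k => dens μ ℱ A (k - 1) ω) n 1 1) / f =
          SA (dif μ ℱ A ω) n q a' - SA (dif μ ℱ A ω) n 1 1 / f +
          (SA (fun k => dens μ ℱ A (k - 1) ω) n q a' - SA (fun k => dens μ ℱ A (k - 1) ω) n 1 1 / f) := by
          rw [add_div]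
          ring
        rw [e0]
        have k9 : (C + C * W + 2 * C1) * (√((n : ℝ) / q) + Real.log n) = C * (√((n : ℝ) / q) + Real.log n) + C * W * (√((n : ℝ) / q) + Real.log n) +
          2 * C1 * (√((n : ℝ) / q) + Real.log n) := by ring
        rw [k9, abs_le]
        constructor <;> linarith [k5.1, k5.2, k6.1, k6.2, k7.1, k7.2])
      rw [hpsi]
      refine hfin.trans (le_of_eq ?_)
      ring
    filter_upwards [hmain] with ω hω
    obtain ⟨C, hC, h⟩ := hω
    refine ⟨⟨C, h⟩, fun ε hε => ⟨C * (1 / ε + 4 / ε ^ 2), fun x q a hx hq hqx hadm => ?_⟩⟩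
    refine (h x q a hx hq hqx hadm).trans ?_
    rw [mul_assoc]
    exact mul_le_mul_of_nonneg_left (eps_form hε hx hq hqx) hC
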